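import Pool.Agent.Helper23.QF.Goals

/-!
# Project QF (MP_ab92ec_nt), packet LOCAL
-/

set_option autoImplicit false

namespace Pool.Agent.Helper37.QF

open Pool.Agent.Helper23.QF

/-- the trace of the palindromic period as a polynomial in the entries -/
def T (a p q r s : ℤ) : ℤ := p * (a ^ 2 * p + 2 * a * q + 2 * a * r + 4 * s) - 2 * (p * s - q * r)

theorem tr_eq (a : ℕ) (u : List ℕ) :
    tr a u = T a (M u 0 0) (M u 0 1) (M u 1 0) (M u 1 1) := by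
  have h := tr_add a u
  rw [Matrix.det_fin_two] at h
  unfold T
  linear_combination h

theorem T_congr (a n p q r s p' q' r' s' : ℤ) (h1 : p ≡ p' [ZMOD n]) (h2 : q ≡ q' [ZMOD n])
    (h3 : r ≡ r' [ZMOD n]) (h4 : s ≡ s' [ZMOD n]) : T a p q r s ≡ T a p' q' r' s' [ZMOD n] := by
  unfold T
  gcongr

/-- the target matrix -/
theorem U_eq (a x y : ℤ) :
    (!![0, 1; 1, -a] * !![1, 0; y, 1] * !![1, x; 0, 1] : Matrix (Fin 2) (Fin 2) ℤ) =
      !![y, x * y + 1; 1 - a * y, x * (1 - a * y) - a] := by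
  ext k l
  fin_cases k <;> fin_cases l <;> simp [Matrix.mul_apply, Fin.sum_univ_two] <;> ring

/-- packet LOCAL -/
theorem gLOCAL (h : GWORDEX) : GLOCAL := by
  intro a b m D0 ha hb hab hm hD0
  set N : ℤ := (a : ℤ) - b with hN
  have hN0 : N ≠ 0 := by
    rw [hN, sub_ne_zero]
    exact_mod_cast hab
  have hm0 : (m : ℤ) ≠ 0 := by exact_mod_cast hm.ne'
  set j : ℤ := 16 * m * D0 with hj
  set i : ℤ := 4 * m * D0 * (D0 + a ^ 2) with hi
  set y : ℤ := N * j with hy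
  set x : ℤ := N * i with hx
  have hy0 : y ≠ 0 := by
    rw [hy, hj]
    exact mul_ne_zero hN0 (mul_ne_zero (mul_ne_zero (by norm_num) hm0) hD0)
  set t0 : ℤ := T a y (x * y + 1) (1 - a * y) (x * (1 - a * y) - a) with ht0
  set α : ℤ := -(a * N * (D0 + a ^ 2)) with hα
  set β : ℤ := 8 * N ^ 2 * m * D0 ^ 2 * (D0 + a ^ 2) + a * N * D0 with hβ
  set γ : ℤ := -(a * N * D0) with hγ
  set k1 : ℤ := α + β + γ + 8 * m * (α * β + β * γ + γ * α) + 64 * m ^ 2 * (α * β * γ) with hk1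
  have e1 : D0 * (t0 ^ 2 - 4) = (2 * y * D0) ^ 2 * (1 + 8 * m * k1) := by
    have e2 : t0 - 2 = y ^ 2 * D0 * (1 + 8 * m * α) := by
      rw [ht0, T, hx, hy, hi, hj, hα]
      ring
    have e3 : t0 + 2 = 4 * (1 + 8 * m * β) * (1 + 8 * m * γ) := by
      rw [ht0, T, hx, hy, hi, hj, hβ, hγ]
      ring
    have e4 : t0 ^ 2 - 4 = (t0 - 2) * (t0 + 2) := by ring
    rw [e4, e2, e3, hk1]
    ring
  have hodd : (1 + 8 * m * k1 : ℤ) ≠ 0 := by
    intro h0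
    have h1 : (8 : ℤ) * (m * k1) = -1 := by linarith
    omega
  have ht4 : t0 ^ 2 - 4 ≠ 0 := by
    intro h0
    rw [h0, mul_zero] at e1
    have h2 : (2 * y * D0) ^ 2 * (1 + 8 * m * k1) ≠ 0 :=
      mul_ne_zero (pow_ne_zero _ (mul_ne_zero (mul_ne_zero (by norm_num) hy0) hD0)) hodd
    exact h2 e1.symm
  have hpos : 0 < 8 * m * (t0 ^ 2 - 4).natAbs :=
    Nat.mul_pos (by omega) (Int.natAbs_pos.2 ht4)
  obtain ⟨u0, hw, hu0⟩ := h a b (8 * m * (t0 ^ 2 - 4).natAbs) i j hpos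
  refine ⟨8 * m * (t0 ^ 2 - 4).natAbs, u0, hpos, hw, ?_⟩
  intro u _ hu
  have hU : ∀ k l, M u k l ≡
      (!![y, x * y + 1; 1 - a * y, x * (1 - a * y) - a] : Matrix (Fin 2) (Fin 2) ℤ) k l
        [ZMOD ((8 * m * (t0 ^ 2 - 4).natAbs : ℕ) : ℤ)] := by
    intro k l
    rw [← U_eq]
    have h1 := dvd_add (hu k l) (hu0 k l)
    rw [sub_add_sub_cancel] at h1
    exact (Int.modEq_iff_dvd.2 h1).symm
  have h5 : tr a u ≡ t0 [ZMOD ((8 * m * (t0 ^ 2 - 4).natAbs : ℕ) : ℤ)] := by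
    rw [tr_eq, ht0]
    exact T_congr _ _ _ _ _ _ _ _ _ _ (hU 0 0) (hU 0 1) (hU 1 0) (hU 1 1)
  have h6 : (tr a u) ^ 2 - 4 ≡ t0 ^ 2 - 4 [ZMOD ((8 * m * (t0 ^ 2 - 4).natAbs : ℕ) : ℤ)] :=
    (h5.pow 2).sub_right 4
  obtain ⟨q, hq⟩ := Int.modEq_iff_dvd.1 h6.symm
  have h7 : ∃ k2 : ℤ, (tr a u) ^ 2 - 4 = (t0 ^ 2 - 4) * (1 + 8 * m * k2) := by
    push_cast at hq
    rcases abs_choice (t0 ^ 2 - 4) with h8 | h8
    · refine ⟨q, ?_⟩
      rw [h8] at hq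
      linear_combination hq
    · refine ⟨-q, ?_⟩
      rw [h8] at hq
      linear_combination hq
  obtain ⟨k2, hk2⟩ := h7
  refine ⟨2 * y * D0, k1 + k2 + 8 * m * (k1 * k2),
    mul_ne_zero (mul_ne_zero (by norm_num) hy0) hD0, ?_⟩
  rw [hk2]
  linear_combination (1 + 8 * m * k2) * e1

end Pool.Agent.Helper37.QF
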